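import Mathlib

set_option autoImplicit false

/-!
# The converse of the stepping-up lemma for order types `η ∔ 1`, under GCH

Here `η ∔ 1` is the ordinal successor of the cardinal `η`, as in the problem file.
-/

open Cardinal Set

universe u

namespace Pool.Agent.Results.MP_2e9b9b_lc.OrdinalSuccessor

/-- The ordinary partition relation `κ → (η k; k < γ)^m` for the cardinals `κ` and `γ` and the
ordinals `η k`: for every colouring `c` of the `m`-element subsets of (the well-ordered set) `κ`
with `γ` colours there are a colour `k` and a set `H ⊆ κ` of order type `η k` all of whose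
`m`-element subsets have the colour `k`. -/
def Arrow (κ γ : Cardinal.{u}) (η : γ.ord.ToType → Ordinal.{u}) (m : ℕ) : Prop :=
  ∀ c : {s : Finset κ.ord.ToType // s.card = m} → γ.ord.ToType,
    ∃ (k : γ.ord.ToType) (H : Set κ.ord.ToType),
      Ordinal.type (fun a b : H => a < b) = η k ∧
      ∀ s : {s : Finset κ.ord.ToType // s.card = m}, (↑s.1 : Set κ.ord.ToType) ⊆ H → c s = k

/-- Every set of cardinality `η` in a well-ordered set contains a set of order type `η`. -/
theorem exists_type {α : Type u} [LinearOrder α] [WellFoundedLT α] {η : Cardinal.{u}} (S : Set α)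
    (hS : η ≤ #S) : ∃ T ⊆ S, Ordinal.type (fun a b : T => a < b) = η.ord := by
  have h1 : η.ord ≤ Ordinal.type (fun a b : S => a < b) := by
    rw [Cardinal.ord_le, Ordinal.card_type]
    exact hS
  have h2 : Ordinal.type (α := η.ord.ToType) (· < ·) ≤ Ordinal.type (fun a b : S => a < b) := by
    rw [Ordinal.type_toType]
    exact h1
  obtain ⟨f⟩ := Ordinal.type_le_iff.1 h2
  refine ⟨Set.range fun x => (f x : α), ?_, ?_⟩
  · rintro _ ⟨x, rfl⟩
    exact (f x).2
  · refine Eq.trans (Eq.symm ?_) (Ordinal.type_toType η.ord)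
    refine Ordinal.type_eq.2 ⟨⟨Equiv.ofInjective (fun x => (f x : α))
      (fun a b hab => f.injective (Subtype.ext hab)), ?_⟩⟩
    intro a b
    show ((f a : α) < (f b : α)) ↔ a < b
    exact f.map_rel_iff

/-- A set of order type `η + 1` has a greatest element, and the other elements form a set of
cardinality `η`. -/
theorem exists_top {α : Type u} [LinearOrder α] [WellFoundedLT α] {η : Cardinal.{u}} (H : Set α)
    (hH : Ordinal.type (fun a b : H => a < b) = Order.succ η.ord) :
    ∃ z ∈ H, #{x : α | x ∈ H ∧ x < z} = η := by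
  have h0 : η.ord < Ordinal.type (fun a b : H => a < b) := by
    rw [hH]; exact Order.lt_succ _
  let z : H := Ordinal.enum (fun a b : H => a < b) ⟨η.ord, h0⟩
  refine ⟨z.1, z.2, ?_⟩
  have h1 : Ordinal.typein (fun a b : H => a < b) z = η.ord := Ordinal.typein_enum _ h0
  have h2 := congrArg Ordinal.card h1
  rw [Cardinal.card_ord] at h2
  rw [← h2]
  have h3 : (Ordinal.typein (fun a b : H => a < b) z).card = #{y : H | y < z} := rfl
  rw [h3]
  refine Cardinal.mk_congr ⟨fun x => ⟨⟨x.1, x.2.1⟩, x.2.2⟩, fun y => ⟨y.1.1, y.1.2, y.2⟩, ?_, ?_⟩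
  · intro x; rfl
  · intro y; rfl

/-- Let `κ` be infinite and `2 ^ κ = κ⁺` (GCH). For all `γ > 0`, all cardinals `η k` and all `n`: if
`κ ↛ (η k; k < γ)^n`, then `2 ^ κ ↛ (η k ∔ 1; k < γ)^(n + 1)`. -/
theorem result (κ γ : Cardinal.{u}) (hκ : ℵ₀ ≤ κ) (hGCH : (2 : Cardinal.{u}) ^ κ = Order.succ κ)
    (hγ : γ ≠ 0) (n : ℕ) (η : γ.ord.ToType → Cardinal.{u})
    (h : ¬ Arrow κ γ (fun k => (η k).ord) n) :
    ¬ Arrow (2 ^ κ) γ (fun k => Order.succ (η k).ord) (n + 1) := by
  classical
  rw [hGCH]
  unfold Arrow at h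
  push Not at h
  obtain ⟨f, hf⟩ := h
  have hne : Nonempty γ.ord.ToType := by
    rw [← Cardinal.mk_ne_zero_iff, Cardinal.mk_ord_toType]; exact hγ
  have hN : Nonempty κ.ord.ToType := by
    rw [← Cardinal.mk_ne_zero_iff, Cardinal.mk_ord_toType]
    exact (Cardinal.aleph0_pos.trans_le hκ).ne'
  have he : ∀ z : (Order.succ κ).ord.ToType, ∃ e : (Order.succ κ).ord.ToType → κ.ord.ToType,
      Set.InjOn e (Iio z) := by
    intro z
    have h1 : #(Iio z) < #((Order.succ κ).ord.ToType) := Cardinal.mk_Iio_lt z (by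
      rw [Cardinal.mk_ord_toType, Ordinal.type_toType])
    rw [Cardinal.mk_ord_toType] at h1
    have h2 : #(Iio z) ≤ #(κ.ord.ToType) := by
      rw [Cardinal.mk_ord_toType]; exact Order.lt_succ_iff.1 h1
    obtain ⟨g⟩ := h2
    refine ⟨fun x => if hx : x < z then g ⟨x, hx⟩ else Classical.choice hN, ?_⟩
    intro x hx y hy hxy
    have hx' : x < z := hx
    have hy' : y < z := hy
    simp only [hx', hy', dif_pos] at hxy
    exact congrArg Subtype.val (g.injective hxy)
  choose e he using he
  let c : {s : Finset (Order.succ κ).ord.ToType // s.card = n + 1} → γ.ord.ToType := fun s =>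
    if hs : ((s.1.erase (s.1.max' (Finset.card_pos.1 (by rw [s.2]; exact Nat.succ_pos n)))).image
      (e (s.1.max' (Finset.card_pos.1 (by rw [s.2]; exact Nat.succ_pos n))))).card = n
    then f ⟨_, hs⟩ else Classical.choice hne
  intro hA
  obtain ⟨k, H, hH, hk⟩ := hA c
  obtain ⟨z, hz, hzc⟩ := exists_top H hH
  have hinj : Set.InjOn (e z) {x | x ∈ H ∧ x < z} := fun x hx y hy hxy => he z hx.2 hy.2 hxy
  obtain ⟨T, hT, hTt⟩ := exists_type (η := η k) (e z '' {x | x ∈ H ∧ x < z})
    (by rw [Cardinal.mk_image_eq_of_injOn _ _ hinj, hzc])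
  obtain ⟨s, hs, hsk⟩ := hf k T hTt
  obtain ⟨t, ht, hts⟩ := Finset.subset_set_image_iff.1 (hs.trans hT)
  have htz : ∀ x ∈ t, x < z := fun x hx => (ht hx).2
  have hzt : z ∉ t := fun hx => lt_irrefl z (htz z hx)
  have htc : t.card = n := by
    rw [← s.2, ← hts, Finset.card_image_of_injOn]
    exact hinj.mono ht
  have hcard : (insert z t).card = n + 1 := by
    rw [Finset.card_insert_of_notMem hzt, htc]
  have hsub : ((insert z t : Finset _) : Set (Order.succ κ).ord.ToType) ⊆ H := by
    intro x hx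
    rcases Finset.mem_insert.1 (Finset.mem_coe.1 hx) with rfl | hx
    · exact hz
    · exact (ht hx).1
  have hmax : ∀ hn, (insert z t).max' hn = z := by
    intro hn
    refine le_antisymm ?_ (Finset.le_max' _ _ (Finset.mem_insert_self z t))
    refine Finset.max'_le _ _ _ ?_
    intro x hx
    rcases Finset.mem_insert.1 hx with rfl | hx
    · exact le_rfl
    · exact (htz x hx).le
  have hc := hk ⟨insert z t, hcard⟩ hsub
  refine hsk ?_
  rw [← hc]
  have himg : ((insert z t).erase z).image (e z) = s.1 := by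
    rw [Finset.erase_insert hzt, hts]
  show f s = c ⟨insert z t, hcard⟩
  simp only [c, hmax, himg]
  rw [dif_pos s.2]

end Pool.Agent.Results.MP_2e9b9b_lc.OrdinalSuccessor
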